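import Mathlib
import Pool.Agent.H71.LargeDist

set_option autoImplicit false
open Classical

/-!
# Large-distance graphs of polytopes in dimension at least four

For every `d ≥ 4` and `m ≥ 3` there are vertex sets `S` of full-dimensional convex polytopes in `ℝ^d`, with `|S|`
arbitrarily large, such that `G(S, ⌊m/2⌋ + 1)` contains `m` pairwise adjacent vertices. Hence the conjecture of
Erdős, Lovász and Vesztergombi is false in every dimension `d ≥ 4`.
-/

namespace Pool.Agent.Results.MP_34e2ea_co.AllDimsFromFour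

open Pool.Agent.H71

/-- The graph `G(S,k)`: distinct points `x, y` of `S` are adjacent iff `|x - y| ≥ d_k`, i.e. iff fewer than `k`
of the distinct distances determined by `S` are larger than `|x - y|`. -/
def largeDistGraph {d : ℕ} (S : Finset (EuclideanSpace ℝ (Fin d))) (k : ℕ) : SimpleGraph S where
  Adj x y := x ≠ y ∧
    ((S.offDiag.image (fun p => dist p.1 p.2)).filter
      (fun r => dist (x : EuclideanSpace ℝ (Fin d)) (y : EuclideanSpace ℝ (Fin d)) < r)).card < k
  symm := ⟨fun x y h => ⟨h.1.symm, by rw [dist_comm]; exact h.2⟩⟩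
  loopless := ⟨fun x h => h.1 rfl⟩

/-- `S` is the vertex set of a convex polytope in `ℝ^d` that is not contained in a hyperplane: `S` is the set of
the extreme points of its convex hull, and its affine span is the whole space. -/
def IsPolytopeVertexSet {d : ℕ} (S : Finset (EuclideanSpace ℝ (Fin d))) : Prop :=
  (convexHull ℝ (S : Set (EuclideanSpace ℝ (Fin d)))).extremePoints ℝ = S ∧
    affineSpan ℝ (S : Set (EuclideanSpace ℝ (Fin d))) = ⊤

/-- Every compact set of diameter 1 in `ℝ^d` can be partitioned into `h` sets (some of which may be empty), each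
of diameter less than 1. -/
def BorsukPartition (d h : ℕ) : Prop :=
  ∀ K : Set (EuclideanSpace ℝ (Fin d)), IsCompact K → Metric.diam K = 1 →
    ∃ A : Fin h → Set (EuclideanSpace ℝ (Fin d)), (⋃ i, A i) = K ∧
      Pairwise (fun i j => Disjoint (A i) (A j)) ∧ ∀ i, Metric.diam (A i) < 1

variable {d : ℕ}

/-- the standard basis vectors -/
noncomputable def e (i : Fin d) : EuclideanSpace ℝ (Fin d) := EuclideanSpace.single i 1

lemma inner_e (i j : Fin d) : inner ℝ (e i) (e j) = if i = j then (1 : ℝ) else 0 := by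
  unfold e
  rw [EuclideanSpace.inner_single_left]
  simp

lemma norm_e (i : Fin d) : ‖e i‖ = 1 := by
  unfold e
  simp

/-- points of the unit circle in the plane spanned by `e a`, `e b` -/
noncomputable def circ (a b : Fin d) (t : ℝ) : EuclideanSpace ℝ (Fin d) :=
  Real.cos t • e a + Real.sin t • e b

lemma inner_circ (a b : Fin d) (hab : a ≠ b) (s t : ℝ) :
    inner ℝ (circ a b s) (circ a b t) = Real.cos (s - t) := by
  unfold circ
  simp only [inner_add_left, inner_add_right, inner_smul_left, inner_smul_right, inner_e, hab, hab.symm,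
    if_true, if_false, Real.cos_sub]
  simp
  ring

lemma norm_circ (a b : Fin d) (hab : a ≠ b) (t : ℝ) : ‖circ a b t‖ = 1 := by
  have h := inner_circ a b hab t t
  rw [sub_self, Real.cos_zero, real_inner_self_eq_norm_sq] at h
  exact (pow_eq_one_iff_of_nonneg (norm_nonneg _) two_ne_zero).1 h.symm.symm

lemma inner_circ_circ (a b a' b' : Fin d) (h1 : a ≠ a') (h2 : a ≠ b') (h3 : b ≠ a') (h4 : b ≠ b')
    (s t : ℝ) : inner ℝ (circ a b s) (circ a' b' t) = (0 : ℝ) := by
  unfold circ
  simp only [inner_add_left, inner_add_right, inner_smul_left, inner_smul_right, inner_e, h1, h2, h3, h4,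
    if_false]
  simp

lemma inner_circ_e (a b c : Fin d) (h1 : a ≠ c) (h2 : b ≠ c) (s : ℝ) :
    inner ℝ (circ a b s) (e c) = (0 : ℝ) := by
  unfold circ
  simp only [inner_add_left, inner_smul_left, inner_e, h1, h2, if_false]
  simp

lemma dist_sq_eq (x y : EuclideanSpace ℝ (Fin d)) (hx : ‖x‖ = 1) (hy : ‖y‖ = 1) :
    dist x y ^ 2 = 2 - 2 * inner ℝ x y := by
  rw [dist_eq_norm, @norm_sub_sq ℝ, hx, hy]
  simp
  ring

lemma dist_eq_sqrt_two (x y : EuclideanSpace ℝ (Fin d)) (hx : ‖x‖ = 1) (hy : ‖y‖ = 1)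
    (h : inner ℝ x y = (0 : ℝ)) : dist x y = Real.sqrt 2 := by
  have h1 := dist_sq_eq x y hx hy
  rw [h, mul_zero, sub_zero] at h1
  rw [← h1, Real.sqrt_sq dist_nonneg]

/-- chord lengths of the regular `m`-gon of circumradius 1 -/
noncomputable def chord (m r : ℕ) : ℝ := Real.sqrt (2 - 2 * Real.cos (2 * Real.pi * r / m))

lemma dist_circ (a b : Fin d) (hab : a ≠ b) (s t : ℝ) :
    dist (circ a b s) (circ a b t) = Real.sqrt (2 - 2 * Real.cos (s - t)) := by
  rw [← inner_circ a b hab, ← dist_sq_eq _ _ (norm_circ a b hab s) (norm_circ a b hab t),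
    Real.sqrt_sq dist_nonneg]

lemma chord_reflect (m r : ℕ) (hm : 0 < m) (hr : r ≤ m) : chord m (m - r) = chord m r := by
  unfold chord
  congr 3
  have hm' : (m : ℝ) ≠ 0 := by positivity
  rw [← Real.cos_two_pi_sub (2 * Real.pi * r / m)]
  congr 1
  rw [Nat.cast_sub hr]
  field_simp

lemma chord_mem (m r : ℕ) (hm : 0 < m) (hr0 : 0 < r) (hr : r < m) :
    chord m r ∈ (Finset.Icc 1 (m / 2)).image (chord m) := by
  rw [Finset.mem_image]
  by_cases h : r ≤ m / 2
  · exact ⟨r, Finset.mem_Icc.2 ⟨hr0, h⟩, rfl⟩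
  · exact ⟨m - r, Finset.mem_Icc.2 ⟨by omega, by omega⟩, chord_reflect m r hm hr.le⟩

lemma dist_gon (a b : Fin d) (hab : a ≠ b) (m i j : ℕ) (hij : i < j) :
    dist (circ a b (2 * Real.pi * i / m)) (circ a b (2 * Real.pi * j / m)) = chord m (j - i) := by
  rw [dist_comm, dist_circ a b hab, chord]
  congr 3
  rw [Nat.cast_sub hij.le]
  congr 1
  ring

lemma dist_gon_mem (a b : Fin d) (hab : a ≠ b) (m i j : ℕ) (hi : i < m) (hj : j < m) (hij : i ≠ j) :
    dist (circ a b (2 * Real.pi * i / m)) (circ a b (2 * Real.pi * j / m)) ∈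
      (Finset.Icc 1 (m / 2)).image (chord m) := by
  rcases lt_or_gt_of_ne hij with h | h
  · rw [dist_gon a b hab m i j h]
    exact chord_mem m _ (by omega) (by omega) (by omega)
  · rw [dist_comm, dist_gon a b hab m j i h]
    exact chord_mem m _ (by omega) (by omega) (by omega)

lemma gon_inj (a b : Fin d) (hab : a ≠ b) (m i j : ℕ) (hi : i < m) (hj : j < m)
    (h : circ a b (2 * Real.pi * i / m) = circ a b (2 * Real.pi * j / m)) : i = j := by
  by_contra hij
  have hm : (0 : ℝ) < m := by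
    have : 0 < m := by omega
    exact_mod_cast this
  have h1 := inner_circ a b hab (2 * Real.pi * i / m) (2 * Real.pi * j / m)
  rw [h, real_inner_self_eq_norm_sq, norm_circ a b hab, one_pow] at h1
  obtain ⟨k, hk⟩ := (Real.cos_eq_one_iff _).1 h1.symm
  have hpi := Real.pi_pos
  have h2 : (k : ℝ) * m = (i : ℝ) - j := by
    field_simp at hk
    exact hk
  have h3 : (k : ℤ) * m = (i : ℤ) - j := by exact_mod_cast h2
  have h4 : (m : ℤ) ∣ (i : ℤ) - j := ⟨k, by rw [mul_comm]; exact h3.symm⟩
  have h5 := Int.eq_zero_of_abs_lt_dvd h4 (by rw [abs_lt]; omega)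
  omega

lemma continuous_circ (a b : Fin d) : Continuous (circ a b) := by
  unfold circ
  fun_prop

/-- arbitrarily many points on an arc of the second circle of diameter less than `δ`, one of them at angle `0` -/
lemma exists_cluster (a b : Fin d) (hab : a ≠ b) (δ : ℝ) (hδ : 0 < δ) (n : ℕ) :
    ∃ Y : Finset (EuclideanSpace ℝ (Fin d)), n ≤ Y.card ∧ (∀ y ∈ Y, ∃ t, y = circ a b t) ∧
      circ a b 0 ∈ Y ∧ (∃ t, Real.sin t ≠ 0 ∧ circ a b t ∈ Y) ∧ ∀ x ∈ Y, ∀ y ∈ Y, dist x y < δ := by
  obtain ⟨η, hη, hηQ⟩ := Metric.continuousAt_iff.1 (continuous_circ a b).continuousAt (δ/2) (by linarith)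
  set ρ := min (η/2) 1 with hρ
  have hρpos : 0 < ρ := lt_min (by linarith) one_pos
  have hρη : ρ < η := lt_of_le_of_lt (min_le_left _ _) (by linarith)
  have hρ1 : ρ ≤ 1 := min_le_right _ _
  have hpi : (3:ℝ) < Real.pi := Real.pi_gt_three
  let s : ℕ → ℝ := fun j => ρ / j
  have hs0 : ∀ j, 0 ≤ s j := fun j => by positivity
  have hs1 : ∀ j, s j ≤ ρ := fun j => by
    rcases Nat.eq_zero_or_pos j with h | h
    · simp only [s, h, Nat.cast_zero, div_zero]; exact hρpos.le
    · exact div_le_self hρpos.le (by exact_mod_cast h)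
  have hsinj : Function.Injective s := by
    intro i j hij
    simp only [s, div_eq_mul_inv] at hij
    have h1 := mul_left_cancel₀ hρpos.ne' hij
    exact_mod_cast inv_injective h1
  have hQinj : Function.Injective (fun j => circ a b (s j)) := by
    intro i j hij
    apply hsinj
    by_contra hne
    have h1 := inner_circ a b hab (s i) (s j)
    simp only at hij
    rw [hij, real_inner_self_eq_norm_sq, norm_circ a b hab, one_pow] at h1
    have h2 := (Real.cos_eq_one_iff_of_lt_of_lt (by linarith [hs0 i, hs1 j]) (by linarith [hs0 j, hs1 i])).1 h1.symm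
    exact hne (sub_eq_zero.1 h2)
  have hnear : ∀ j, dist (circ a b (s j)) (circ a b 0) < δ/2 := by
    intro j
    apply hηQ
    rw [Real.dist_eq, sub_zero, abs_of_nonneg (hs0 j)]
    exact lt_of_le_of_lt (hs1 j) hρη
  have hs00 : s 0 = 0 := by simp [s]
  refine ⟨(Finset.range (n + 2)).image (fun j => circ a b (s j)), ?_, ?_, ?_, ?_, ?_⟩
  · rw [Finset.card_image_of_injective _ hQinj, Finset.card_range]; omega
  · intro y hy
    obtain ⟨j, -, rfl⟩ := Finset.mem_image.1 hy
    exact ⟨_, rfl⟩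
  · exact Finset.mem_image.2 ⟨0, Finset.mem_range.2 (by omega), by rw [hs00]⟩
  · refine ⟨s 1, ?_, Finset.mem_image.2 ⟨1, Finset.mem_range.2 (by omega), rfl⟩⟩
    have h1 : 0 < s 1 := by simp only [s]; positivity
    exact (Real.sin_pos_of_pos_of_lt_pi h1 (by linarith [hs1 1])).ne'
  · intro x hx y hy
    obtain ⟨i, -, rfl⟩ := Finset.mem_image.1 hx
    obtain ⟨j, -, rfl⟩ := Finset.mem_image.1 hy
    calc dist (circ a b (s i)) (circ a b (s j)) ≤
        dist (circ a b (s i)) (circ a b 0) + dist (circ a b 0) (circ a b (s j)) := dist_triangle _ _ _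
      _ < δ/2 + δ/2 := by
          refine add_lt_add (hnear i) ?_
          rw [dist_comm]; exact hnear j
      _ = δ := by ring

/-- points of the unit sphere are the extreme points of their convex hull -/
lemma extreme_of_sphere (S : Finset (EuclideanSpace ℝ (Fin d))) (hS : ∀ x ∈ S, ‖x‖ = 1) :
    (convexHull ℝ (S : Set (EuclideanSpace ℝ (Fin d)))).extremePoints ℝ = S := by
  apply Set.Subset.antisymm extremePoints_convexHull_subset
  intro x hx
  have hsub : convexHull ℝ (S : Set (EuclideanSpace ℝ (Fin d))) ⊆ Metric.closedBall 0 1 := by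
    apply convexHull_min _ (convex_closedBall _ _)
    intro y hy
    rw [mem_closedBall_zero_iff]
    exact (hS y hy).le
  apply inter_extremePoints_subset_extremePoints_of_subset hsub
  refine ⟨subset_convexHull ℝ _ hx, ?_⟩
  refine StrictConvexSpace.sphere_subset_extremePoints_closedBall 0 one_ne_zero ?_
  rw [mem_sphere_zero_iff_norm]
  exact hS x hx

/-- the construction -/
theorem construction (n m N : ℕ) (hm : 3 ≤ m) :
    ∃ S : Finset (EuclideanSpace ℝ (Fin (n + 4))), N ≤ S.card ∧ IsPolytopeVertexSet S ∧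
      ∃ c : Fin m → S, Function.Injective c ∧
        ∀ i j, i ≠ j → (largeDistGraph S (m / 2 + 1)).Adj (c i) (c j) := by
  set i0 : Fin (n + 4) := ⟨0, by omega⟩ with hi0
  set i1 : Fin (n + 4) := ⟨1, by omega⟩ with hi1
  set i2 : Fin (n + 4) := ⟨2, by omega⟩ with hi2
  set i3 : Fin (n + 4) := ⟨3, by omega⟩ with hi3
  have h01 : i0 ≠ i1 := by simp [hi0, hi1]
  have h02 : i0 ≠ i2 := by simp [hi0, hi2]
  have h03 : i0 ≠ i3 := by simp [hi0, hi3]
  have h12 : i1 ≠ i2 := by simp [hi1, hi2]
  have h13 : i1 ≠ i3 := by simp [hi1, hi3]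
  have h23 : i2 ≠ i3 := by simp [hi2, hi3]
  -- the regular m-gon
  let p : ℕ → EuclideanSpace ℝ (Fin (n + 4)) := fun j => circ i0 i1 (2 * Real.pi * j / m)
  set X : Finset (EuclideanSpace ℝ (Fin (n + 4))) := (Finset.range m).image p with hX
  obtain ⟨δ, hδ, hsep⟩ := exists_sep X
  obtain ⟨Y, hYcard, hYQ, hY0, ⟨t1, ht1, hY1⟩, hYδ⟩ := exists_cluster i2 i3 h23 δ hδ N
  set F : Finset (EuclideanSpace ℝ (Fin (n + 4))) :=
    ((Finset.univ : Finset (Fin (n + 4))).filter (fun i => 4 ≤ i.val)).image e with hF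
  set Z := Y ∪ F with hZ
  set S := X ∪ Z with hS
  have hXnorm : ∀ x ∈ X, ‖x‖ = 1 := by
    intro x hx
    obtain ⟨j, -, rfl⟩ := Finset.mem_image.1 hx
    exact norm_circ _ _ h01 _
  have hZform : ∀ z ∈ Z, (∃ t, z = circ i2 i3 t ∧ z ∈ Y) ∨ ∃ i : Fin (n + 4), 4 ≤ i.val ∧ z = e i := by
    intro z hz
    rcases Finset.mem_union.1 hz with h | h
    · obtain ⟨t, ht⟩ := hYQ z h
      exact Or.inl ⟨t, ht, h⟩
    · obtain ⟨i, hi, rfl⟩ := Finset.mem_image.1 h
      exact Or.inr ⟨i, (Finset.mem_filter.1 hi).2, rfl⟩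
  have hZnorm : ∀ x ∈ Z, ‖x‖ = 1 := by
    intro x hx
    rcases hZform x hx with ⟨t, rfl, -⟩ | ⟨i, -, rfl⟩
    · exact norm_circ _ _ h23 _
    · exact norm_e i
  have hSnorm : ∀ x ∈ S, ‖x‖ = 1 := by
    intro x hx
    rcases Finset.mem_union.1 hx with h | h
    · exact hXnorm x h
    · exact hZnorm x h
  have hne4 : ∀ (j i : Fin (n + 4)), j.val < 4 → 4 ≤ i.val → j ≠ i := by
    intro j i hj hi h
    rw [h] at hj
    omega
  -- distances
  have hXZ : ∀ x ∈ X, ∀ z ∈ Z, dist x z = Real.sqrt 2 := by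
    intro x hx z hz
    apply dist_eq_sqrt_two x z (hXnorm x hx) (hZnorm z hz)
    obtain ⟨j, -, rfl⟩ := Finset.mem_image.1 hx
    rcases hZform z hz with ⟨t, rfl, -⟩ | ⟨i, hi, rfl⟩
    · exact inner_circ_circ _ _ _ _ h02 h03 h12 h13 _ _
    · exact inner_circ_e _ _ _ (hne4 _ _ (by simp [hi0]) hi) (hne4 _ _ (by simp [hi1]) hi) _
  have hZZ : ∀ x ∈ Z, ∀ z ∈ Z, x ≠ z → dist x z = Real.sqrt 2 ∨ dist x z < δ := by
    intro x hx z hz hxz
    rcases hZform x hx with ⟨t, rfl, hx'⟩ | ⟨i, hi, rfl⟩ <;>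
      rcases hZform z hz with ⟨t', rfl, hz'⟩ | ⟨j, hj, rfl⟩
    · exact Or.inr (hYδ _ hx' _ hz')
    · left
      apply dist_eq_sqrt_two _ _ (norm_circ _ _ h23 _) (norm_e _)
      exact inner_circ_e _ _ _ (hne4 _ _ (by simp [hi2]) hj) (hne4 _ _ (by simp [hi3]) hj) _
    · left
      rw [dist_comm]
      apply dist_eq_sqrt_two _ _ (norm_circ _ _ h23 _) (norm_e _)
      exact inner_circ_e _ _ _ (hne4 _ _ (by simp [hi2]) hi) (hne4 _ _ (by simp [hi3]) hi) _
    · left
      apply dist_eq_sqrt_two _ _ (norm_e _) (norm_e _)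
      rw [inner_e, if_neg (fun h => hxz (by rw [h]))]
  have hXX : ∀ x ∈ X, ∀ y ∈ X, x ≠ y → dist x y ∈ (Finset.Icc 1 (m / 2)).image (chord m) := by
    intro x hx y hy hxy
    obtain ⟨i, hi, rfl⟩ := Finset.mem_image.1 hx
    obtain ⟨j, hj, rfl⟩ := Finset.mem_image.1 hy
    exact dist_gon_mem i0 i1 h01 m i j (Finset.mem_range.1 hi) (Finset.mem_range.1 hj)
      (fun h => hxy (by rw [h]))
  have hpX : ∀ i < m, p i ∈ X := fun i hi => Finset.mem_image_of_mem p (Finset.mem_range.2 hi)
  have hpS : ∀ i < m, p i ∈ S := fun i hi => Finset.mem_union_left _ (hpX i hi)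
  have hadj : ∀ x ∈ X, ∀ y ∈ X, x ≠ y →
      ((S.offDiag.image (fun q => dist q.1 q.2)).filter (fun r => dist x y < r)).card < m / 2 + 1 := by
    intro x hx y hy hxy
    have hxyD := hXX x hx y hy hxy
    have hsub : (S.offDiag.image (fun q => dist q.1 q.2)).filter (fun r => dist x y < r) ⊆
        insert (Real.sqrt 2) (((Finset.Icc 1 (m / 2)).image (chord m)).erase (dist x y)) := by
      intro r hr
      rw [Finset.mem_filter, Finset.mem_image] at hr
      obtain ⟨⟨⟨u, v⟩, huv, rfl⟩, hlt⟩ := hr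
      rw [Finset.mem_offDiag] at huv
      obtain ⟨hu, hv, hne⟩ := huv
      simp only at hu hv hne hlt ⊢
      rw [hS, Finset.mem_union] at hu hv
      rw [Finset.mem_insert]
      rcases hu with hu | hu <;> rcases hv with hv | hv
      · right
        exact Finset.mem_erase.2 ⟨hlt.ne', hXX u hu v hv hne⟩
      · left; exact hXZ u hu v hv
      · left; rw [dist_comm]; exact hXZ v hv u hu
      · rcases hZZ u hu v hv hne with h | h
        · exact Or.inl h
        · exfalso
          have := hsep x hx y hy hxy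
          linarith
    have hpos : 0 < ((Finset.Icc 1 (m / 2)).image (chord m)).card := Finset.card_pos.2 ⟨_, hxyD⟩
    calc _ ≤ (insert (Real.sqrt 2) (((Finset.Icc 1 (m / 2)).image (chord m)).erase (dist x y))).card :=
          Finset.card_le_card hsub
      _ ≤ (((Finset.Icc 1 (m / 2)).image (chord m)).erase (dist x y)).card + 1 := Finset.card_insert_le _ _
      _ = ((Finset.Icc 1 (m / 2)).image (chord m)).card := by
          rw [Finset.card_erase_of_mem hxyD]; omega
      _ ≤ (Finset.Icc 1 (m / 2)).card := Finset.card_image_le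
      _ = m / 2 := by simp
      _ < m / 2 + 1 := by omega
  refine ⟨S, ?_, ⟨extreme_of_sphere S hSnorm, ?_⟩, fun i => ⟨p i, hpS i i.2⟩, ?_, ?_⟩
  · calc N ≤ Y.card := hYcard
      _ ≤ Z.card := Finset.card_le_card Finset.subset_union_left
      _ ≤ S.card := Finset.card_le_card Finset.subset_union_right
  · -- the affine span is everything
    have hne : (affineSpan ℝ (S : Set (EuclideanSpace ℝ (Fin (n + 4))))).direction = ⊤ → 
        affineSpan ℝ (S : Set (EuclideanSpace ℝ (Fin (n + 4)))) = ⊤ := by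
      intro h
      refine (AffineSubspace.direction_eq_top_iff_of_nonempty ?_).1 h
      exact ⟨p 0, subset_affineSpan ℝ _ (hpS 0 (by omega))⟩
    apply hne
    rw [direction_affineSpan]
    set W := vectorSpan ℝ (S : Set (EuclideanSpace ℝ (Fin (n + 4)))) with hW
    have hdiff : ∀ x ∈ S, ∀ y ∈ S, x - y ∈ W := fun x hx y hy => by
      have := vsub_mem_vectorSpan ℝ (Finset.mem_coe.2 hx) (Finset.mem_coe.2 hy)
      simpa using this
    have hm0 : (0 : ℝ) < m := by
      have : 0 < m := by omega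
      exact_mod_cast this
    have hpi := Real.pi_pos
    set θ : ℝ := 2 * Real.pi / m with hθ
    have hθ0 : 0 < θ := by positivity
    have hθ1 : θ < Real.pi := by
      rw [hθ, div_lt_iff₀ hm0]
      have : (3 : ℝ) ≤ m := by exact_mod_cast hm
      nlinarith
    have hp0 : p 0 = e i0 := by
      simp [p, circ]
    have hp1 : p 1 = Real.cos θ • e i0 + Real.sin θ • e i1 := by
      simp only [p, circ, Nat.cast_one, mul_one, hθ]
    have hpl : p (m - 1) = Real.cos θ • e i0 - Real.sin θ • e i1 := by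
      have h1 : 2 * Real.pi * ((m - 1 : ℕ) : ℝ) / m = 2 * Real.pi - θ := by
        rw [Nat.cast_sub (by omega), hθ]
        field_simp
        push_cast
        ring
      simp only [p, circ]
      rw [h1, Real.cos_two_pi_sub, Real.sin_two_pi_sub, neg_smul, sub_eq_add_neg]
    have d1 := hdiff _ (hpS 0 (by omega)) _ (hpS 1 (by omega))
    have d2 := hdiff _ (hpS 1 (by omega)) _ (hpS (m - 1) (by omega))
    have d3 := hdiff _ (hpS 0 (by omega)) _ (hpS (m - 1) (by omega))
    rw [hp0, hp1] at d1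
    rw [hp1, hpl] at d2
    rw [hp0, hpl] at d3
    have hsin : Real.sin θ ≠ 0 := (Real.sin_pos_of_pos_of_lt_pi hθ0 hθ1).ne'
    have hcos : 1 - Real.cos θ ≠ 0 := by
      intro h
      have h1 : Real.cos θ = 1 := by linarith
      have := (Real.cos_eq_one_iff_of_lt_of_lt (by linarith) (by linarith)).1 h1
      linarith
    have he1 : e i1 ∈ W := by
      have h1 : e i1 = (2 * Real.sin θ)⁻¹ • (Real.cos θ • e i0 + Real.sin θ • e i1 -
          (Real.cos θ • e i0 - Real.sin θ • e i1)) := by
        rw [show Real.cos θ • e i0 + Real.sin θ • e i1 - (Real.cos θ • e i0 - Real.sin θ • e i1) =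
          (2 * Real.sin θ) • e i1 by rw [mul_smul, two_smul]; abel, smul_smul,
          inv_mul_cancel₀ (mul_ne_zero two_ne_zero hsin), one_smul]
      rw [h1]
      exact W.smul_mem _ d2
    have he0 : e i0 ∈ W := by
      have h1 : (1 - Real.cos θ) • e i0 ∈ W := by
        have h2 : (1 - Real.cos θ) • e i0 =
            (e i0 - (Real.cos θ • e i0 + Real.sin θ • e i1)) + Real.sin θ • e i1 := by
          rw [sub_smul, one_smul]; abel
        rw [h2]
        exact W.add_mem d1 (W.smul_mem _ he1)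
      have h3 := W.smul_mem (1 - Real.cos θ)⁻¹ h1
      rwa [smul_smul, inv_mul_cancel₀ hcos, one_smul] at h3
    have hall : ∀ x ∈ S, x ∈ W := by
      intro x hx
      have h1 := hdiff x hx _ (hpS 0 (by omega))
      rw [hp0] at h1
      have h2 := W.add_mem h1 he0
      rwa [sub_add_cancel] at h2
    have hZS : ∀ z ∈ Z, z ∈ S := fun z hz => Finset.mem_union_right _ hz
    have hYS : ∀ z ∈ Y, z ∈ S := fun z hz => hZS z (Finset.mem_union_left _ hz)
    have he2 : e i2 ∈ W := by
      have h1 := hall _ (hYS _ hY0)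
      have h2 : circ i2 i3 0 = e i2 := by simp [circ]
      rwa [h2] at h1
    have he3 : e i3 ∈ W := by
      have h1 := hall _ (hYS _ hY1)
      unfold circ at h1
      have h2 : Real.sin t1 • e i3 ∈ W := by
        have h3 := W.sub_mem h1 (W.smul_mem (Real.cos t1) he2)
        rwa [add_sub_cancel_left] at h3
      have h4 := W.smul_mem (Real.sin t1)⁻¹ h2
      rwa [smul_smul, inv_mul_cancel₀ ht1, one_smul] at h4
    have hei : ∀ i : Fin (n + 4), e i ∈ W := by
      intro i
      by_cases hi : 4 ≤ i.val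
      · refine hall _ (hZS _ (Finset.mem_union_right _ ?_))
        exact Finset.mem_image_of_mem _ (Finset.mem_filter.2 ⟨Finset.mem_univ _, hi⟩)
      · have h4 : i = i0 ∨ i = i1 ∨ i = i2 ∨ i = i3 := by
          simp only [hi0, hi1, hi2, hi3, Fin.ext_iff]
          omega
        rcases h4 with h | h | h | h <;> rw [h] <;> assumption
    rw [eq_top_iff]
    intro x _
    have hx : x = ∑ i, x i • e i := by
      have := (EuclideanSpace.basisFun (Fin (n + 4)) ℝ).sum_repr x
      simpa [e] using this.symm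
    rw [hx]
    exact W.sum_mem fun i _ => W.smul_mem _ (hei i)
  · intro i j hij
    have h1 : p i = p j := congrArg Subtype.val hij
    exact Fin.ext (gon_inj i0 i1 h01 m i j i.2 j.2 h1)
  · intro i j hij
    have hne : p i ≠ p j := fun h => hij (Fin.ext (gon_inj i0 i1 h01 m i j i.2 j.2 h))
    exact ⟨fun h => hne (congrArg Subtype.val h), hadj _ (hpX i i.2) _ (hpX j j.2) hne⟩

/-- Some number of parts suffices for all compact sets of diameter 1. -/
lemma exists_borsuk (d : ℕ) : ∃ h, BorsukPartition d h := by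
  obtain ⟨m, hm⟩ := exists_partition d
  refine ⟨m, fun K hK hdiam => ?_⟩
  obtain ⟨f, hf⟩ := hm K hK hdiam
  refine ⟨fun i => K ∩ f ⁻¹' {i}, ?_, ?_, hf⟩
  · ext x
    simp
  · intro i j hij
    rw [Set.disjoint_left]
    rintro x ⟨-, hx⟩ ⟨-, hx'⟩
    exact hij (hx.symm.trans hx')

/-- For every `d ≥ 4`: (1) for all `m ≥ 3` and `N` there is the vertex set `S` of a full-dimensional convex
polytope in `ℝ^d` with `|S| ≥ N` such that `G(S, ⌊m/2⌋ + 1)` contains `m` pairwise adjacent vertices; (2) `h(d)`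
is finite, and for some `k` there are such `S` with `|S|` arbitrarily large and `χ(G(S,k)) > h(d)`. -/
theorem result (d : ℕ) (hd : 4 ≤ d) :
    (∀ m N : ℕ, 3 ≤ m → ∃ S : Finset (EuclideanSpace ℝ (Fin d)), N ≤ S.card ∧ IsPolytopeVertexSet S ∧
      ∃ c : Fin m → S, Function.Injective c ∧
        ∀ i j, i ≠ j → (largeDistGraph S (m / 2 + 1)).Adj (c i) (c j)) ∧
    ∃ h, IsLeast {h : ℕ | BorsukPartition d h} h ∧ ∃ k : ℕ, ∀ N : ℕ,
      ∃ S : Finset (EuclideanSpace ℝ (Fin d)), N ≤ S.card ∧ IsPolytopeVertexSet S ∧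
        (h : ℕ∞) < (largeDistGraph S k).chromaticNumber := by
  obtain ⟨n, rfl⟩ := Nat.exists_eq_add_of_le' hd
  refine ⟨fun m N hm => construction n m N hm, Nat.find (exists_borsuk (n + 4)),
    ⟨Nat.find_spec (exists_borsuk (n + 4)), fun h hh => Nat.find_min' _ hh⟩, ?_⟩
  set h := Nat.find (exists_borsuk (n + 4))
  refine ⟨(h + 3) / 2 + 1, fun N => ?_⟩
  obtain ⟨S, hN, hV, c, hc, hadj⟩ := construction n (h + 3) N (by omega)
  refine ⟨S, hN, hV, ?_⟩
  by_contra hcon
  rw [not_lt, SimpleGraph.chromaticNumber_le_iff_colorable] at hcon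
  obtain ⟨C⟩ := hcon
  have hinj : Function.Injective (fun i => C (c i)) := by
    intro i j hij
    by_contra hne
    exact C.valid (hadj i j hne) hij
  have hle := Fintype.card_le_of_injective _ hinj
  rw [Fintype.card_fin, Fintype.card_fin] at hle
  omega

end Pool.Agent.Results.MP_34e2ea_co.AllDimsFromFour
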