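import Mathlib

set_option autoImplicit false
open Classical

namespace Pool.Agent.Results.MP_34e2ea_co.DimThree

/-- The graph `G(S,k)`: distinct points `x, y` of `S` are adjacent iff `|x - y| ≥ d_k`, i.e. iff fewer than `k`
of the distinct distances determined by `S` are larger than `|x - y|`. -/
def largeDistGraph {d : ℕ} (S : Finset (EuclideanSpace ℝ (Fin d))) (k : ℕ) : SimpleGraph S where
  Adj x y := x ≠ y ∧
    ((S.offDiag.image (fun p => dist p.1 p.2)).filter
      (fun r => dist (x : EuclideanSpace ℝ (Fin d)) (y : EuclideanSpace ℝ (Fin d)) < r)).card < k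
  symm := ⟨fun x y h => ⟨h.1.symm, by rw [dist_comm]; exact h.2⟩⟩
  loopless := ⟨fun x h => h.1 rfl⟩

/-- golden ratio -/
noncomputable def φ : ℝ := (1 + Real.sqrt 5) / 2

lemma φ_sq : φ ^ 2 = φ + 1 := by
  have h : Real.sqrt 5 ^ 2 = 5 := Real.sq_sqrt (by norm_num)
  unfold φ
  nlinarith

lemma φ_lb : 1.6 < φ := by
  have h : (2.2:ℝ) < Real.sqrt 5 := by
    apply Real.lt_sqrt_of_sq_lt; norm_num
  unfold φ; linarith

lemma φ_ub : φ < 1.7 := by
  have h : Real.sqrt 5 < 2.4 := by
    rw [Real.sqrt_lt' (by norm_num)]; norm_num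
  unfold φ; linarith

/-- six vertices of an icosahedron centred at the origin -/
noncomputable def X : Fin 6 → EuclideanSpace ℝ (Fin 3) :=
  ![!₂[0, 1, φ], !₂[0, -1, φ], !₂[1, φ, 0], !₂[-1, φ, 0], !₂[φ, 0, 1], !₂[-φ, 0, 1]]

/-- cluster points near the origin, on a parabola in the plane orthogonal to `(0, 1, φ)` -/
noncomputable def Y (a : ℝ) : EuclideanSpace ℝ (Fin 3) := !₂[a, φ * a ^ 2, - a ^ 2]

lemma dist_sq (u v : EuclideanSpace ℝ (Fin 3)) :
    dist u v ^ 2 = (u 0 - v 0) ^ 2 + (u 1 - v 1) ^ 2 + (u 2 - v 2) ^ 2 := by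
  rw [EuclideanSpace.dist_eq, Real.sq_sqrt (Finset.sum_nonneg fun i _ => sq_nonneg _)]
  simp [Fin.sum_univ_three, Real.dist_eq, sq_abs]

/-- distances in `X`: their squares are `4` or `4 φ ^ 2`. -/
lemma dist_X (i j : Fin 6) (h : i ≠ j) : dist (X i) (X j) ^ 2 = 4 ∨ dist (X i) (X j) ^ 2 = 4 * φ ^ 2 := by
  have h2 := φ_sq
  rw [dist_sq]
  fin_cases i <;> fin_cases j <;> first | exact absurd rfl h | skip
  all_goals simp [X]
  all_goals first
    | (left; nlinarith)
    | (right; nlinarith)

lemma dist_X' (i j : Fin 6) (h : i ≠ j) : dist (X i) (X j) = 2 ∨ dist (X i) (X j) = 2 * φ := by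
  have h0 : 0 ≤ dist (X i) (X j) := dist_nonneg
  have hφ : 0 < φ := by linarith [φ_lb]
  rcases dist_X i j h with h | h
  · left; nlinarith
  · right
    have : (dist (X i) (X j) - 2 * φ) * (dist (X i) (X j) + 2 * φ) = 0 := by nlinarith
    rcases mul_eq_zero.1 this with h3 | h3
    · linarith
    · nlinarith

lemma X_inj : Function.Injective X := by
  intro i j hij
  by_contra h
  have hφ : 0 < φ := by linarith [φ_lb]
  rcases dist_X' i j h with h2 | h2 <;> rw [hij, dist_self] at h2 <;> linarith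

lemma dist_X_Y (i : Fin 6) (a : ℝ) (h0 : 0 < a) (h1 : a ≤ 1/100) : dist (X i) (Y a) < 2 := by
  have hφ1 := φ_lb
  have hφ2 := φ_ub
  have h2 := φ_sq
  have ha2 : 0 < a^2 := by positivity
  have ha3 : a^2 ≤ 1/10000 := by nlinarith
  have h3 : dist (X i) (Y a) ^ 2 < 2 ^ 2 := by
    rw [dist_sq]
    fin_cases i
    all_goals simp [X, Y]
    all_goals nlinarith [mul_pos h0 (by linarith : (0:ℝ) < φ), mul_pos ha2 (by linarith : (0:ℝ) < φ), mul_pos ha2 ha2, mul_pos h0 ha2]
  exact lt_of_pow_lt_pow_left₀ 2 (by norm_num) h3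

lemma dist_Y_Y (a b : ℝ) (h0 : 0 < a) (h1 : a ≤ 1/100) (h0' : 0 < b) (h1' : b ≤ 1/100) :
    dist (Y a) (Y b) < 2 := by
  have hφ1 := φ_lb
  have hφ2 := φ_ub
  have h2 := φ_sq
  have ha3 : a^2 ≤ 1/10000 := by nlinarith
  have hb3 : b^2 ≤ 1/10000 := by nlinarith
  have h3 : dist (Y a) (Y b) ^ 2 < 2 ^ 2 := by
    rw [dist_sq]
    simp [Y]
    have e1 : (a - b)^2 ≤ 1/10000 := by nlinarith
    have e2 : (a^2 - b^2)^2 ≤ 1/10000 := by nlinarith [sq_nonneg a, sq_nonneg b]
    have e3 : (φ * a ^ 2 - φ * b ^ 2) ^ 2 = φ^2 * (a^2 - b^2)^2 := by ring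
    have e4 : (-a ^ 2 + b ^ 2) ^ 2 = (a^2 - b^2)^2 := by ring
    rw [e3, e4, h2]
    nlinarith
  exact lt_of_pow_lt_pow_left₀ 2 (by norm_num) h3

/-- exposing functional criterion -/
lemma not_mem_convexHull_of_exposed {S : Set (EuclideanSpace ℝ (Fin 3))} {x : EuclideanSpace ℝ (Fin 3)}
    (p q r : ℝ)
    (h : ∀ y ∈ S, y ≠ x → p * y 0 + q * y 1 + r * y 2 < p * x 0 + q * x 1 + r * x 2) :
    x ∉ convexHull ℝ (S \ {x}) := by
  intro hmem
  have hsub : S \ {x} ⊆ {y | p * y 0 + q * y 1 + r * y 2 < p * x 0 + q * x 1 + r * x 2} := by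
    rintro y ⟨hy, hyx⟩
    exact h y hy hyx
  have hconv : Convex ℝ {y : EuclideanSpace ℝ (Fin 3) |
      p * y 0 + q * y 1 + r * y 2 < p * x 0 + q * x 1 + r * x 2} := by
    apply convex_halfSpace_lt (f := fun y : EuclideanSpace ℝ (Fin 3) => p * y 0 + q * y 1 + r * y 2)
    exact ⟨fun a b => by simp; ring, fun c a => by simp; ring⟩
  have h9 : p * x 0 + q * x 1 + r * x 2 < p * x 0 + q * x 1 + r * x 2 := convexHull_min hsub hconv hmem
  exact lt_irrefl _ h9

/-- For every `N` there is a set `S` of at least `N` points in convex position in three-dimensional Euclidean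
space whose graph of two largest distances `G(S,2)` contains a complete graph on six vertices; hence it is not
`5`-colourable. -/
theorem result : ∀ N : ℕ, ∃ S : Finset (EuclideanSpace ℝ (Fin 3)),
    N ≤ S.card ∧
    (∀ x ∈ S, x ∉ convexHull ℝ ((↑S : Set (EuclideanSpace ℝ (Fin 3))) \ {x})) ∧
    (∃ c : Fin 6 → S, Function.Injective c ∧ ∀ i j, i ≠ j → (largeDistGraph S 2).Adj (c i) (c j)) ∧
    ¬ (largeDistGraph S 2).Colorable 5 := by
  intro N
  have hφ1 := φ_lb
  have hφ2 := φ_ub
  have hφsq := φ_sq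
  let a : ℕ → ℝ := fun j => 1 / (100 * ((j:ℝ) + 1))
  have ha0 : ∀ j, 0 < a j := fun j => by positivity
  have ha1 : ∀ j, a j ≤ 1/100 := fun j => by
    have hj : (0:ℝ) ≤ j := Nat.cast_nonneg j
    apply one_div_le_one_div_of_le (by norm_num)
    linarith
  have hainj : Function.Injective a := by
    intro i j hij
    have h1 : (i:ℝ) + 1 ≠ 0 := by positivity
    have h2 : (j:ℝ) + 1 ≠ 0 := by positivity
    simp only [a] at hij
    field_simp at hij
    have : (j:ℝ) = i := by linarith
    exact_mod_cast this.symm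
  have hYinj : Function.Injective (fun j => Y (a j)) := by
    intro i j hij
    apply hainj
    have h3 : (Y (a i)) 0 = (Y (a j)) 0 := by simp only at hij; rw [hij]
    simpa [Y] using h3
  set SX : Finset (EuclideanSpace ℝ (Fin 3)) := Finset.univ.image X with hSX
  set SY : Finset (EuclideanSpace ℝ (Fin 3)) := (Finset.range N).image (fun j => Y (a j)) with hSY
  set S := SX ∪ SY with hS
  have hmem : ∀ x ∈ S, (∃ i, x = X i) ∨ (∃ j, x = Y (a j)) := by
    intro x hx
    rw [hS, Finset.mem_union, hSX, hSY, Finset.mem_image, Finset.mem_image] at hx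
    rcases hx with ⟨i, -, h⟩ | ⟨j, -, h⟩
    · exact Or.inl ⟨i, h.symm⟩
    · exact Or.inr ⟨j, h.symm⟩
  have hXS : ∀ i, X i ∈ S := fun i =>
    Finset.mem_union_left _ (Finset.mem_image_of_mem _ (Finset.mem_univ _))
  have hadj : ∀ i j, i ≠ j → (largeDistGraph S 2).Adj ⟨X i, hXS i⟩ ⟨X j, hXS j⟩ := by
    intro i j hij
    refine ⟨fun h => hij (X_inj (congrArg Subtype.val h)), ?_⟩
    have hge : 2 ≤ dist (X i) (X j) := by
      rcases dist_X' i j hij with h | h <;> rw [h] <;> linarith
    have hsub : (S.offDiag.image (fun p => dist p.1 p.2)).filter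
        (fun r => dist (X i) (X j) < r) ⊆ {2 * φ} := by
      intro r hr
      rw [Finset.mem_filter, Finset.mem_image] at hr
      obtain ⟨⟨⟨p, q⟩, hpq, rfl⟩, hlt⟩ := hr
      rw [Finset.mem_offDiag] at hpq
      obtain ⟨hp, hq, hne⟩ := hpq
      simp only at hp hq hne hlt
      rw [Finset.mem_singleton]
      rcases hmem p hp with ⟨i', rfl⟩ | ⟨i', rfl⟩ <;> rcases hmem q hq with ⟨j', rfl⟩ | ⟨j', rfl⟩
      · have hij' : i' ≠ j' := fun h => hne (by rw [h])
        rcases dist_X' i' j' hij' with h | h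
        · exfalso; linarith
        · exact h
      · exfalso
        have := dist_X_Y i' (a j') (ha0 j') (ha1 j')
        linarith
      · exfalso
        have := dist_X_Y j' (a i') (ha0 i') (ha1 i')
        rw [dist_comm] at this
        linarith
      · exfalso
        have := dist_Y_Y (a i') (a j') (ha0 i') (ha1 i') (ha0 j') (ha1 j')
        linarith
    calc _ ≤ ({2 * φ} : Finset ℝ).card := Finset.card_le_card hsub
      _ < 2 := by simp
  refine ⟨S, ?_, ?_, ?_, ?_⟩
  · calc N = SY.card := by rw [hSY, Finset.card_image_of_injective _ hYinj, Finset.card_range]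
      _ ≤ S.card := Finset.card_le_card Finset.subset_union_right
  · intro x hx
    rcases hmem x hx with ⟨i, rfl⟩ | ⟨j, rfl⟩
    · -- expose a vertex of the icosahedron by itself
      apply not_mem_convexHull_of_exposed ((X i) 0) ((X i) 1) ((X i) 2)
      intro y hy hne
      rcases hmem y hy with ⟨k, rfl⟩ | ⟨k, rfl⟩
      · have hik : i ≠ k := fun h => hne (by rw [h])
        clear hne hy hx
        fin_cases i <;> fin_cases k <;> first | exact absurd rfl hik | skip
        all_goals simp [X]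
        all_goals nlinarith
      · have h0 := ha0 k
        have h1 := ha1 k
        generalize a k = b at h0 h1
        have hb2 : 0 < b ^ 2 := by positivity
        have hb3 : b ^ 2 ≤ 1/10000 := by nlinarith
        have hb4 : φ * b ^ 2 ≤ 1 := by nlinarith
        have hb5 : 0 ≤ φ * b ^ 2 := by positivity
        have hb6 : 0 ≤ φ * b := by positivity
        have hb7 : φ * b ≤ 1 := by nlinarith
        have hb8 : φ * (φ * b ^ 2) ≤ 1 := by nlinarith
        clear hy hne hx
        fin_cases i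
        all_goals simp [X, Y]
        all_goals nlinarith
    · -- expose a cluster point
      apply not_mem_convexHull_of_exposed (2 * a j) (- φ / (φ + 2) - 10) (1 / (φ + 2) - 10 * φ)
      intro y hy hne
      have hpos : 0 < φ + 2 := by linarith
      have hval0 : ∀ b e : ℝ, 2 * b * (Y e) 0 + (- φ / (φ + 2) - 10) * (Y e) 1 + (1 / (φ + 2) - 10 * φ) * (Y e) 2
            = 2 * b * e - e ^ 2 := by
        intro b e
        have hk : (φ ^ 2 + 1) / (φ + 2) = 1 := by
          rw [div_eq_one_iff_eq hpos.ne']; linarith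
        have h1 : 2 * b * (Y e) 0 + (- φ / (φ + 2) - 10) * (Y e) 1 + (1 / (φ + 2) - 10 * φ) * (Y e) 2
            = 2 * b * e - e ^ 2 * ((φ ^ 2 + 1) / (φ + 2)) := by
          simp [Y]; ring
        rw [h1, hk, mul_one]
      rcases hmem y hy with ⟨k, rfl⟩ | ⟨k, rfl⟩
      · have h0 := ha0 j
        have h1 := ha1 j
        generalize a j = b at h0 h1
        have hval : 2 * b * (Y b) 0 + (- φ / (φ + 2) - 10) * (Y b) 1 + (1 / (φ + 2) - 10 * φ) * (Y b) 2 = b ^ 2 := by
          rw [hval0]; ring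
        rw [hval]
        have hb2 : 0 < b ^ 2 := by positivity
        have hc1 : 0 ≤ φ / (φ + 2) := by positivity
        have hc2 : φ / (φ + 2) ≤ 1 := by rw [div_le_one hpos]; linarith
        have hc3 : 0 ≤ 1 / (φ + 2) := by positivity
        have hc4 : 1 / (φ + 2) ≤ 1 := by rw [div_le_one hpos]; linarith
        have e1 : - φ / (φ + 2) = - (φ / (φ + 2)) := by ring
        rw [e1]
        generalize φ / (φ + 2) = c at hc1 hc2
        generalize 1 / (φ + 2) = c' at hc3 hc4
        clear hval hy hne hx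
        fin_cases k
        all_goals simp [X]
        all_goals nlinarith
      · have hne' : a k ≠ a j := fun h => hne (by rw [h])
        generalize a j = b at hne'
        generalize a k = e at hne'
        rw [hval0, hval0]
        have : 0 < (e - b) ^ 2 := by
          have : e - b ≠ 0 := sub_ne_zero.2 hne'
          positivity
        nlinarith
  · exact ⟨fun i => ⟨X i, hXS i⟩, fun i j h => X_inj (congrArg Subtype.val h), hadj⟩
  · rintro ⟨C⟩
    have hinj : Function.Injective (fun i : Fin 6 => C ⟨X i, hXS i⟩) := by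
      intro i j hij
      by_contra hne
      exact C.valid (hadj i j hne) hij
    have := Fintype.card_le_of_injective _ hinj
    simp at this

end Pool.Agent.Results.MP_34e2ea_co.DimThree
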